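import Pool.Agent.Helper10.RBC.Goals

/-!
# RDL and RDP of `Helper10/RBC/Goals.lean`: a perturbation of rank `r`, the leading coefficient of `det (1 + τ P B)`
-/

open Matrix
open scoped ComplexOrder

namespace Pool.Agent.Helper44.RBC

open scoped MatrixOrder in
theorem psd_root {n : ℕ} (M : Matrix (Fin n) (Fin n) ℂ) (hM : M.PosSemidef) :
    ∃ B : Matrix (Fin n) (Fin n) ℂ, M = Bᴴ * B := by
  obtain ⟨y, hy⟩ := CStarAlgebra.nonneg_iff_eq_star_mul_self.mp hM.nonneg
  exact ⟨y, by rw [hy, Matrix.star_eq_conjTranspose]⟩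

/-- Simultaneous diagonalization. -/
theorem sd {n : ℕ} (M D : Matrix (Fin n) (Fin n) ℂ) (hM : M.PosDef) (hD : D.IsHermitian) :
    ∃ (S : Matrix (Fin n) (Fin n) ℂ) (μ : Fin n → ℝ), IsUnit S.det ∧ M = S * Sᴴ ∧
      D = S * Matrix.diagonal (fun i => (μ i : ℂ)) * Sᴴ := by
  obtain ⟨B, hB⟩ := psd_root M hM.posSemidef
  have hBu : IsUnit B.det := by
    have h1 : M.det ≠ 0 := hM.det_pos.ne'
    rw [hB, Matrix.det_mul] at h1
    exact isUnit_iff_ne_zero.2 (right_ne_zero_of_mul h1)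
  set m := Bᴴ with hm
  have hmu : IsUnit m.det := by
    rw [hm, Matrix.det_conjTranspose]
    exact isUnit_iff_ne_zero.2 (by simpa using hBu.ne_zero)
  set C := m⁻¹ * D * (m⁻¹)ᴴ with hC
  have hCH : C.IsHermitian := Matrix.isHermitian_mul_mul_conjTranspose _ hD
  have hsp := hCH.spectral_theorem
  set U : Matrix (Fin n) (Fin n) ℂ := (hCH.eigenvectorUnitary : Matrix (Fin n) (Fin n) ℂ) with hU
  have hUU : U * Uᴴ = 1 := by
    have := (Matrix.mem_unitaryGroup_iff).1 hCH.eigenvectorUnitary.2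
    simpa [Matrix.star_eq_conjTranspose] using this
  refine ⟨m * U, hCH.eigenvalues, ?_, ?_, ?_⟩
  · rw [Matrix.det_mul]
    refine hmu.mul ?_
    refine isUnit_iff_ne_zero.2 fun h0 => ?_
    have := congrArg Matrix.det hUU
    rw [Matrix.det_mul, h0, zero_mul, Matrix.det_one] at this
    exact zero_ne_one this
  · rw [Matrix.conjTranspose_mul]
    calc M = m * (U * Uᴴ) * mᴴ := by rw [hUU, Matrix.mul_one, hB, hm, Matrix.conjTranspose_conjTranspose]
      _ = m * U * (Uᴴ * mᴴ) := by simp only [Matrix.mul_assoc]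
  · have hC2 : C = U * Matrix.diagonal (fun i => (hCH.eigenvalues i : ℂ)) * Uᴴ := by
      conv_lhs => rw [hsp]
      rw [Unitary.conjStarAlgAut_apply]
      simp [hU, Matrix.star_eq_conjTranspose, Function.comp_def]
    have hm1 : m * m⁻¹ = 1 := Matrix.mul_nonsing_inv _ hmu
    have hm2 : (m⁻¹)ᴴ * mᴴ = 1 := by
      rw [← Matrix.conjTranspose_mul, hm1, Matrix.conjTranspose_one]
    calc D = (m * m⁻¹) * D * ((m⁻¹)ᴴ * mᴴ) := by rw [hm1, hm2, Matrix.one_mul, Matrix.mul_one]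
      _ = m * C * mᴴ := by rw [hC]; simp only [Matrix.mul_assoc]
      _ = m * U * Matrix.diagonal (fun i => (hCH.eigenvalues i : ℂ)) * (m * U)ᴴ := by
        conv_lhs => rw [hC2]
        rw [Matrix.conjTranspose_mul]; simp only [Matrix.mul_assoc]

theorem psd_conj {n : ℕ} {S : Matrix (Fin n) (Fin n) ℂ} (hS : IsUnit S.det) {μ : Fin n → ℝ}
    (h : (S * Matrix.diagonal (fun i => (μ i : ℂ)) * Sᴴ).PosSemidef) (i : Fin n) : 0 ≤ μ i := by
  have h1 := h.mul_mul_conjTranspose_same (S⁻¹)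
  have h2 : S⁻¹ * (S * Matrix.diagonal (fun i => (μ i : ℂ)) * Sᴴ) * (S⁻¹)ᴴ =
      Matrix.diagonal (fun i => (μ i : ℂ)) := by
    have a1 : S⁻¹ * S = 1 := Matrix.nonsing_inv_mul _ hS
    have a2 : Sᴴ * (S⁻¹)ᴴ = 1 := by rw [← Matrix.conjTranspose_mul, a1, Matrix.conjTranspose_one]
    calc _ = (S⁻¹ * S) * Matrix.diagonal (fun i => (μ i : ℂ)) * (Sᴴ * (S⁻¹)ᴴ) := by
          simp only [Matrix.mul_assoc]
      _ = _ := by rw [a1, a2, Matrix.one_mul, Matrix.mul_one]
  rw [h2, Matrix.posSemidef_diagonal_iff] at h1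
  have := h1 i
  exact_mod_cast this

theorem det_conj {n : ℕ} (S : Matrix (Fin n) (Fin n) ℂ) (μ : Fin n → ℝ) :
    (S * Matrix.diagonal (fun i => (μ i : ℂ)) * Sᴴ).det =
      (S * Sᴴ).det * ((∏ i, μ i : ℝ) : ℂ) := by
  rw [Matrix.det_mul, Matrix.det_mul, Matrix.det_diagonal, Matrix.det_mul]
  push_cast
  ring

/-- Monotonicity of the determinant. -/
theorem det_mono {n : ℕ} (A B : Matrix (Fin n) (Fin n) ℂ) (hA : A.PosSemidef)
    (hB : B.PosSemidef) : A.det.re ≤ (A + B).det.re := by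
  have hs : 0 ≤ (A + B).det := (hA.add hB).det_nonneg
  by_cases h0 : A.det = 0
  · rw [h0]; exact (Complex.le_def.1 hs).1
  · have hAd : A.PosDef := hA.posDef_iff_isUnit.2 ((Matrix.isUnit_iff_isUnit_det _).2
      (isUnit_iff_ne_zero.2 h0))
    obtain ⟨S, μ, hS, h1, h2⟩ := sd A B hAd hB.1
    have hμ : ∀ i, 0 ≤ μ i := fun i => psd_conj hS (by rw [← h2]; exact hB) i
    have h3 : A + B = S * Matrix.diagonal (fun i => ((1 + μ i : ℝ) : ℂ)) * Sᴴ := by
      rw [h2]
      conv_lhs => rw [h1]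
      have : Matrix.diagonal (fun i => ((1 + μ i : ℝ) : ℂ)) = (1 : Matrix (Fin n) (Fin n) ℂ) +
          Matrix.diagonal (fun i => (μ i : ℂ)) := by
        rw [← Matrix.diagonal_one, Matrix.diagonal_add]
        congr 1; funext i; push_cast; rfl
      rw [this, Matrix.mul_add, Matrix.add_mul, Matrix.mul_one]
    rw [h3, det_conj, ← h1, Complex.re_mul_ofReal]
    have hA0 : 0 ≤ A.det.re := (Complex.le_def.1 hAd.det_pos.le).1
    have hp : 1 ≤ ∏ i, (1 + μ i) := Finset.one_le_prod fun i _ => by linarith [hμ i]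
    nlinarith

/-- The rank of an idempotent matrix is its trace. -/
theorem rank_proj {n : ℕ} (P : Matrix (Fin n) (Fin n) ℂ) (hP : P * P = P) :
    Matrix.trace P = (P.rank : ℂ) := by
  have h1 : IsIdempotentElem (Matrix.toLin' P) := by
    unfold IsIdempotentElem
    have : (Matrix.toLin' P) * (Matrix.toLin' P) = Matrix.toLin' (P * P) := by
      rw [Matrix.toLin'_mul]; rfl
    rw [this, hP]
  have h2 : LinearMap.IsProj (LinearMap.range (Matrix.toLin' P)) (Matrix.toLin' P) := by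
    refine ⟨fun x => ⟨x, rfl⟩, ?_⟩
    rintro _ ⟨y, rfl⟩
    have := congrArg (fun f => f y) h1.eq
    simpa using this
  have h3 := h2.trace
  rw [LinearMap.trace_eq_matrix_trace ℂ (Pi.basisFun ℂ (Fin n))] at h3
  have h4 : LinearMap.toMatrix (Pi.basisFun ℂ (Fin n)) (Pi.basisFun ℂ (Fin n))
      (Matrix.toLin' P) = P := by
    rw [← Matrix.toLin_eq_toLin', LinearMap.toMatrix_toLin]
  rw [h4] at h3
  rw [h3]
  rfl


theorem rdl0 {n : ℕ} (r : ℕ) (M D P : Matrix (Fin n) (Fin n) ℂ) (lam : ℝ)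
    (hM : M.PosDef) (hD : D.PosSemidef) (hP : P * P = P) (ht : Matrix.trace P = r)
    (hPD : P * D = D) (hl : 1 ≤ lam) (hle : ((lam : ℂ) • M - (M + D)).PosSemidef) :
    (M + D).det.re ≤ lam ^ r * M.det.re := by
  obtain ⟨S, μ, hS, h1, h2⟩ := sd M D hM hD.1
  have hμ : ∀ i, 0 ≤ μ i := fun i => psd_conj hS (by rw [← h2]; exact hD) i
  have hμ2 : ∀ i, 0 ≤ lam - 1 - μ i := by
    refine psd_conj hS ?_
    convert hle using 1
    conv_rhs => rw [h2, h1]
    have : Matrix.diagonal (fun i => ((lam - 1 - μ i : ℝ) : ℂ)) =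
        (lam : ℂ) • (1 : Matrix (Fin n) (Fin n) ℂ) - 1 - Matrix.diagonal (fun i => (μ i : ℂ)) := by
      rw [← Matrix.diagonal_one, ← Matrix.diagonal_smul, Matrix.diagonal_sub,
        Matrix.diagonal_sub]
      congr 1; funext i; push_cast; simp
    rw [this, Matrix.mul_sub, Matrix.sub_mul, Matrix.mul_sub, Matrix.sub_mul, Matrix.mul_one,
      Matrix.mul_smul, Matrix.smul_mul, Matrix.mul_one]
    abel
  have h3 : M + D = S * Matrix.diagonal (fun i => ((1 + μ i : ℝ) : ℂ)) * Sᴴ := by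
    rw [h2]
    conv_lhs => rw [h1]
    have : Matrix.diagonal (fun i => ((1 + μ i : ℝ) : ℂ)) = (1 : Matrix (Fin n) (Fin n) ℂ) +
        Matrix.diagonal (fun i => (μ i : ℂ)) := by
      rw [← Matrix.diagonal_one, Matrix.diagonal_add]
      congr 1; funext i; push_cast; rfl
    rw [this, Matrix.mul_add, Matrix.add_mul, Matrix.mul_one]
  have hSH : IsUnit (Sᴴ).det := by
    rw [Matrix.det_conjTranspose]
    exact isUnit_iff_ne_zero.2 (by simpa using hS.ne_zero)
  have hrk : (D).rank = Fintype.card {i // (μ i : ℂ) ≠ 0} := by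
    rw [h2, Matrix.rank_mul_eq_left_of_isUnit_det _ _ hSH,
      Matrix.rank_mul_eq_right_of_isUnit_det _ _ hS, Matrix.rank_diagonal]
  have hrP : P.rank = r := by
    have := rank_proj P hP
    rw [ht] at this
    exact_mod_cast this.symm
  have hle2 : D.rank ≤ r := by
    rw [← hrP]
    conv_lhs => rw [← hPD]
    exact Matrix.rank_mul_le_left P D
  have hcard : (Finset.univ.filter fun i => μ i ≠ 0).card ≤ r := by
    rw [hrk, Fintype.card_subtype] at hle2
    convert hle2 using 4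
    simp
  have hM0 : 0 ≤ M.det.re := (Complex.le_def.1 hM.det_pos.le).1
  rw [h3, det_conj, ← h1, Complex.re_mul_ofReal, mul_comm]
  refine mul_le_mul_of_nonneg_right ?_ hM0
  calc ∏ i, (1 + μ i) = ∏ i ∈ Finset.univ.filter (fun i => μ i ≠ 0), (1 + μ i) := by
        rw [Finset.prod_filter]
        refine Finset.prod_congr rfl fun i _ => ?_
        split_ifs with h
        · rfl
        · rw [not_not.1 h]; ring
    _ ≤ ∏ i ∈ Finset.univ.filter (fun i => μ i ≠ 0), lam :=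
        Finset.prod_le_prod (fun i _ => by linarith [hμ i]) fun i _ => by linarith [hμ2 i]
    _ = lam ^ (Finset.univ.filter fun i => μ i ≠ 0).card := by rw [Finset.prod_const]
    _ ≤ lam ^ r := pow_le_pow_right₀ hl hcard

theorem rdp0 {n : ℕ} (r : ℕ) (Q h P B : Matrix (Fin n) (Fin n) ℂ) (ε : ℝ)
    (hQ : Q.PosDef) (hh : h.PosDef) (hP : P * P = P) (hPh : P * h = h * Pᴴ)
    (ht : Matrix.trace P = r) (hε : 0 < ε) (hB : B = (ε : ℂ) • (h * Q⁻¹)) :
    0 ≤ (P * B * P + (1 - P)).det.re ∧ ∀ τ : ℝ, 0 ≤ τ →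
      τ ^ r * (P * B * P + (1 - P)).det.re * Q.det.re ≤
        (Q + ((τ * ε : ℝ) : ℂ) • (P * h)).det.re := by
  have hH : (P * h).IsHermitian := by
    unfold Matrix.IsHermitian
    rw [Matrix.conjTranspose_mul, hh.1.eq, hPh]
  obtain ⟨S, μ, hS, h1, h2⟩ := sd h (P * h) hh hH
  have a1 : S⁻¹ * S = 1 := Matrix.nonsing_inv_mul _ hS
  have a2 : S * S⁻¹ = 1 := Matrix.mul_nonsing_inv _ hS
  have a3 : Sᴴ * (S⁻¹)ᴴ = 1 := by rw [← Matrix.conjTranspose_mul, a1, Matrix.conjTranspose_one]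
  have a4 : (S⁻¹)ᴴ * Sᴴ = 1 := by rw [← Matrix.conjTranspose_mul, a2, Matrix.conjTranspose_one]
  set E : Matrix (Fin n) (Fin n) ℂ := Matrix.diagonal (fun i => (μ i : ℂ)) with hE
  have hPE : P = S * E * S⁻¹ := by
    have h3 : P * (S * Sᴴ) = S * E * Sᴴ := by rw [← h1, h2]
    calc P = P * (S * (Sᴴ * (S⁻¹)ᴴ) * S⁻¹) := by rw [a3, Matrix.mul_one, a2, Matrix.mul_one]
      _ = P * (S * Sᴴ) * (S⁻¹)ᴴ * S⁻¹ := by simp only [Matrix.mul_assoc]
      _ = S * E * (Sᴴ * (S⁻¹)ᴴ) * S⁻¹ := by rw [h3]; simp only [Matrix.mul_assoc]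
      _ = S * E * S⁻¹ := by rw [a3, Matrix.mul_one]
  have hEP : E = S⁻¹ * P * S := by
    rw [hPE]
    calc E = (S⁻¹ * S) * E * (S⁻¹ * S) := by rw [a1, Matrix.one_mul, Matrix.mul_one]
      _ = _ := by simp only [Matrix.mul_assoc]
  have hEE : E * E = E := by
    calc E * E = S⁻¹ * P * (S * S⁻¹) * P * S := by
          conv_lhs => rw [hEP]
          simp only [Matrix.mul_assoc]
      _ = S⁻¹ * (P * P) * S := by rw [a2, Matrix.mul_one]; simp only [Matrix.mul_assoc]
      _ = E := by rw [hP, ← hEP]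
  have hμ : ∀ i, μ i = 0 ∨ μ i = 1 := by
    intro i
    have := congrFun (congrFun hEE i) i
    rw [hE, Matrix.diagonal_mul_diagonal, Matrix.diagonal_apply_eq, Matrix.diagonal_apply_eq] at this
    have h4 : μ i * μ i = μ i := by exact_mod_cast this
    have h5 : μ i * (μ i - 1) = 0 := by linarith
    rcases mul_eq_zero.1 h5 with h | h
    · exact Or.inl h
    · exact Or.inr (by linarith)
  have hEH : Eᴴ = E := by
    rw [hE, Matrix.diagonal_conjTranspose]
    congr 1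
    funext i
    simp
  have htr : Matrix.trace E = r := by
    rw [hEP, Matrix.trace_mul_comm, ← Matrix.mul_assoc, a2, Matrix.one_mul, ht]
  have hcard : (Finset.univ.filter fun i => μ i = 1).card = r := by
    have h3 : Matrix.trace E = ((Finset.univ.filter fun i => μ i = 1).card : ℂ) := by
      rw [hE, Matrix.trace_diagonal, Finset.card_filter]
      push_cast
      refine Finset.sum_congr rfl fun i _ => ?_
      rcases hμ i with h | h <;> simp [h]
    rw [htr] at h3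
    exact_mod_cast h3.symm
  set q := S⁻¹ * Q * (S⁻¹)ᴴ with hq
  have hqp : q.PosSemidef := hQ.posSemidef.mul_mul_conjTranspose_same _
  have hQq : Q = S * q * Sᴴ := by
    rw [hq]
    calc Q = (S * S⁻¹) * Q * ((S⁻¹)ᴴ * Sᴴ) := by rw [a2, a4, Matrix.one_mul, Matrix.mul_one]
      _ = _ := by simp only [Matrix.mul_assoc]
  have hQd : IsUnit Q.det := isUnit_iff_ne_zero.2 hQ.det_pos.ne'
  have hqd : IsUnit q.det := by
    rw [hQq, Matrix.det_mul, Matrix.det_mul] at hQd
    exact (IsUnit.mul_iff.1 (IsUnit.mul_iff.1 hQd).1).2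
  have hqi : q⁻¹ = Sᴴ * Q⁻¹ * S := by
    refine Matrix.inv_eq_right_inv ?_
    rw [hq]
    calc S⁻¹ * Q * (S⁻¹)ᴴ * (Sᴴ * Q⁻¹ * S) = S⁻¹ * Q * ((S⁻¹)ᴴ * Sᴴ) * Q⁻¹ * S := by
          simp only [Matrix.mul_assoc]
      _ = S⁻¹ * (Q * Q⁻¹) * S := by rw [a4, Matrix.mul_one]; simp only [Matrix.mul_assoc]
      _ = 1 := by rw [Matrix.mul_nonsing_inv _ hQd, Matrix.mul_one, a1]
  have hqip : (q⁻¹).PosSemidef := by
    rw [hqi]
    have := hQ.inv.posSemidef.mul_mul_conjTranspose_same Sᴴ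
    rwa [Matrix.conjTranspose_conjTranspose] at this
  set Z : Matrix (Fin n) (Fin n) ℂ := (ε : ℂ) • (E * q⁻¹ * E) with hZ
  have hεc : (0 : ℂ) ≤ (ε : ℂ) := by exact_mod_cast hε.le
  have hZp : Z.PosSemidef := by
    refine Matrix.PosSemidef.smul ?_ hεc
    have := hqip.mul_mul_conjTranspose_same E
    rwa [hEH] at this
  have hE1p : (1 - E).PosSemidef := by
    have : 1 - E = Matrix.diagonal (fun i => ((1 - μ i : ℝ) : ℂ)) := by
      rw [hE, ← Matrix.diagonal_one, Matrix.diagonal_sub]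
      congr 1; funext i; push_cast; rfl
    rw [this, Matrix.posSemidef_diagonal_iff]
    intro i
    have : 0 ≤ 1 - μ i := by rcases hμ i with h | h <;> rw [h] <;> norm_num
    exact_mod_cast this
  have hEp : E.PosSemidef := by
    rw [hE, Matrix.posSemidef_diagonal_iff]
    intro i
    have : 0 ≤ μ i := by rcases hμ i with h | h <;> rw [h] <;> norm_num
    exact_mod_cast this
  have hW : P * B * P + (1 - P) = S * (Z + (1 - E)) * S⁻¹ := by
    have e1 : P * B * P = S * Z * S⁻¹ := by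
      rw [hB, hZ, hqi]
      conv_lhs => rw [hPE, h1]
      simp only [Matrix.mul_smul, Matrix.smul_mul]
      congr 1
      calc S * E * S⁻¹ * (S * Sᴴ * Q⁻¹) * (S * E * S⁻¹) =
            S * E * (S⁻¹ * S) * Sᴴ * Q⁻¹ * S * E * S⁻¹ := by simp only [Matrix.mul_assoc]
        _ = _ := by rw [a1, Matrix.mul_one]; simp only [Matrix.mul_assoc]
    rw [e1, Matrix.mul_add, Matrix.add_mul, Matrix.mul_sub, Matrix.sub_mul, Matrix.mul_one, a2,
      ← hPE]
  have hWd : (P * B * P + (1 - P)).det = (Z + (1 - E)).det := by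
    rw [hW, Matrix.det_mul, Matrix.det_mul]
    have : S.det * (S⁻¹).det = 1 := by rw [← Matrix.det_mul, a2, Matrix.det_one]
    calc S.det * (Z + (1 - E)).det * (S⁻¹).det = (Z + (1 - E)).det * (S.det * (S⁻¹).det) := by ring
      _ = _ := by rw [this, mul_one]
  have hEZ : E * Z = Z := by
    rw [hZ, Matrix.mul_smul, ← Matrix.mul_assoc, ← Matrix.mul_assoc, hEE]
  refine ⟨?_, fun τ hτ => ?_⟩
  · rw [hWd]
    exact (Complex.le_def.1 (hZp.add hE1p).det_nonneg).1
  · have hτc : (0 : ℂ) ≤ (τ : ℂ) := by exact_mod_cast hτ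
    have hdE : ((τ : ℂ) • E + (1 - E)).det = ((τ ^ r : ℝ) : ℂ) := by
      have : (τ : ℂ) • E + (1 - E) = Matrix.diagonal (fun i => ((τ * μ i + (1 - μ i) : ℝ) : ℂ)) := by
        rw [hE, ← Matrix.diagonal_one, Matrix.diagonal_sub, ← Matrix.diagonal_smul,
          Matrix.diagonal_add]
        congr 1; funext i; push_cast; simp
      rw [this, Matrix.det_diagonal, ← Complex.ofReal_prod]
      congr 1
      rw [← hcard, ← Finset.prod_const, Finset.prod_filter]
      refine Finset.prod_congr rfl fun i _ => ?_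
      rcases hμ i with h | h <;> simp [h]
    have hprod : ((τ : ℂ) • E + (1 - E)) * (Z + (1 - E)) = (τ : ℂ) • Z + (1 - E) := by
      have e2 : (1 - E) * Z = 0 := by rw [Matrix.sub_mul, Matrix.one_mul, hEZ, sub_self]
      have e3 : E * (1 - E) = 0 := by rw [Matrix.mul_sub, Matrix.mul_one, hEE, sub_self]
      have e4 : (1 - E) * (1 - E) = 1 - E := by
        rw [Matrix.sub_mul, Matrix.one_mul, e3, sub_zero]
      rw [Matrix.add_mul, Matrix.mul_add, Matrix.mul_add, Matrix.smul_mul, Matrix.smul_mul, hEZ, e2,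
        e3, e4, smul_zero, add_zero, zero_add]
    have hmono := det_mono ((τ : ℂ) • Z + (1 - E)) E ((hZp.smul hτc).add hE1p) hEp
    have hsum : (τ : ℂ) • Z + (1 - E) + E = 1 + (τ : ℂ) • Z := by abel
    rw [hsum, ← hprod, Matrix.det_mul, hdE, Complex.re_ofReal_mul] at hmono
    -- the determinant of `Q + τ ε P h`
    have hQd0 : 0 ≤ Q.det.re ∧ Q.det.im = 0 := by
      have := Complex.le_def.1 hQ.det_pos.le
      exact ⟨this.1, this.2.symm⟩
    have hdet : (Q + ((τ * ε : ℝ) : ℂ) • (P * h)).det = Q.det * (1 + (τ : ℂ) • Z).det := by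
      have e1 : Q + ((τ * ε : ℝ) : ℂ) • (P * h) =
          S * (q * (1 + (τ * ε : ℂ) • (q⁻¹ * E))) * Sᴴ := by
        rw [h2, Matrix.mul_add, Matrix.mul_one, Matrix.mul_smul, ← Matrix.mul_assoc,
          Matrix.mul_nonsing_inv _ hqd, Matrix.one_mul, Matrix.mul_add, Matrix.add_mul, ← hQq,
          Matrix.mul_smul, Matrix.smul_mul]
        push_cast
        rfl
      have e2 : (1 + (τ * ε : ℂ) • (q⁻¹ * E)).det = (1 + (τ : ℂ) • Z).det := by
        have e3 : (τ * ε : ℂ) • (q⁻¹ * E) = ((τ * ε : ℂ) • (q⁻¹ * E)) * E := by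
          rw [Matrix.smul_mul, Matrix.mul_assoc, hEE]
        rw [e3, Matrix.det_one_add_mul_comm, Matrix.mul_smul, hZ, smul_smul, Matrix.mul_assoc]
      have e4 : Q.det = S.det * q.det * (Sᴴ).det := by
        conv_lhs => rw [hQq]
        rw [Matrix.det_mul, Matrix.det_mul]
      rw [e1, Matrix.det_mul, Matrix.det_mul, Matrix.det_mul, e2, e4]
      ring
    rw [hdet, hWd]
    have hre : (Q.det * (1 + (τ : ℂ) • Z).det).re = Q.det.re * (1 + (τ : ℂ) • Z).det.re := by
      rw [Complex.mul_re, hQd0.2, zero_mul, sub_zero]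
    rw [hre, mul_comm (Q.det.re)]
    exact mul_le_mul_of_nonneg_right hmono hQd0.1

theorem rdl : Pool.Agent.Helper10.RBC.S_RDL := by
  intro n r M D P lam hM hD hP ht hPD hl hle
  exact rdl0 r M D P lam hM hD hP ht hPD hl hle

theorem rdp : Pool.Agent.Helper10.RBC.S_RDP := by
  intro n r Q h P B ε hQ hh hP hPh ht hε hB
  exact rdp0 r Q h P B ε hQ hh hP hPh ht hε hB

end Pool.Agent.Helper44.RBC
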